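import Pool.Agent.Helper53.AE.GoalsD

/-!
# Project AE (MP_8130e1_an), packet NUC: surjections onto nuclear algebras have approximate liftings
-/

set_option autoImplicit false

open scoped ComplexOrder Topology
open Filter TopologicalSpace

namespace Pool.Agent.Helper14.AE.NUC

open Pool.Agent.Helper53.AE

/-- a single kernel -/
theorem posK_one {N M : Type} [NonUnitalCStarAlgebra N] [NonUnitalCStarAlgebra M]
    (κ : N →ₗ[ℂ] M) (h : ∀ (n : ℕ) (K : Fin n → Fin n → N), PosK Set.univ K →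
      PosK Set.univ fun i j => κ (K i j)) (c : N) :
    ∃ (r : ℕ) (W : Fin r → M), κ (star c * c) = ∑ j, star (W j) * W j := by
  obtain ⟨r, W, -, hW⟩ := h 1 (fun _ _ => star c * c)
    ⟨1, fun _ _ => c, fun _ _ => Set.mem_univ _, fun s t => by simp⟩
  exact ⟨r, fun j => W j 0, hW 0 0⟩

/-- positive contractions go to contractions -/
theorem bnd1 {N M : Type} [CStarAlgebra N] [CStarAlgebra M] (κ : N →ₗ[ℂ] M)
    (h : ∀ c : N, ∃ (r : ℕ) (W : Fin r → M), κ (star c * c) = ∑ j, star (W j) * W j)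
    (h1 : ‖κ 1‖ ≤ 1) {r : ℕ} (W : Fin r → N) (hx : ‖∑ j, star (W j) * W j‖ ≤ 1) :
    ‖κ (∑ j, star (W j) * W j)‖ ≤ 1 := by
  let _ := CStarAlgebra.spectralOrder N
  have _ := CStarAlgebra.spectralOrderedRing N
  let _ := CStarAlgebra.spectralOrder M
  have _ := CStarAlgebra.spectralOrderedRing M
  have hpos : ∀ c : N, 0 ≤ κ (star c * c) := by
    intro c
    obtain ⟨r, W, hW⟩ := h c
    rw [hW]
    exact Finset.sum_nonneg fun j _ => star_mul_self_nonneg _
  obtain ⟨x, hxd⟩ : ∃ x, x = ∑ j, star (W j) * W j := ⟨_, rfl⟩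
  rw [← hxd] at hx ⊢
  have hx0 : 0 ≤ x := by
    rw [hxd]
    exact Finset.sum_nonneg fun j _ => star_mul_self_nonneg _
  have hk0 : 0 ≤ κ x := by
    rw [hxd, map_sum]
    exact Finset.sum_nonneg fun j _ => hpos _
  have hx1 : x ≤ 1 := (CStarAlgebra.norm_le_one_iff_of_nonneg x hx0).1 hx
  obtain ⟨c, hc⟩ := CStarAlgebra.nonneg_iff_eq_star_mul_self.1 (sub_nonneg.2 hx1)
  have hk1 : κ x ≤ κ 1 := by
    rw [← sub_nonneg, ← map_sub, hc]
    exact hpos c
  exact (CStarAlgebra.norm_le_norm_of_nonneg_of_le hk0 hk1).trans h1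

theorem t (hCPK : S_CPK) (hLFP : S_LFP) (hUCE : S_UCE) (hBND : S_BND) : S_NUC := by
  intro A B _ _ π hπ hB S ε hε
  classical
  obtain ⟨k, φ, ψ, hφ, hψ, hφcp, hψcp, happ⟩ := hB (S.image fun x => x.snd) ε hε
  obtain ⟨ψ', hlift, hone, hpos⟩ := hLFP A B π hπ k ψ hψ hψcp
  obtain ⟨κ, hκ⟩ : ∃ κ : Mk k →ₗ[ℂ] Unitization ℂ A, ∀ x, κ x = (ψ' x : Unitization ℂ A) :=
    ⟨(Unitization.inrHom ℂ ℂ A) ∘ₗ ψ', fun _ => rfl⟩
  have hκpos : ∀ (n : ℕ) (K : Fin n → Fin n → Mk k), PosK Set.univ K →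
      PosK Set.univ fun i j => κ (K i j) := by
    intro n K hK
    obtain ⟨r, W, -, hW⟩ := hpos n K hK
    refine ⟨r, fun j s => (W j s : Unitization ℂ A), fun _ _ => Set.mem_univ _, fun s t => ?_⟩
    have h1 := congrArg (Unitization.inrNonUnitalStarAlgHom ℂ A) (hW s t)
    rw [map_sum] at h1
    refine (hκ _).trans (h1.trans (Finset.sum_congr rfl fun j _ => ?_))
    rw [map_mul, map_star]
    rfl
  have hκone : ‖κ 1‖ ≤ 1 := by
    rw [hκ, Unitization.norm_inr]
    exact hone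
  have hκb : ∀ x, ‖κ x‖ ≤ 2 * ‖x‖ := hBND (Mk k) (Unitization ℂ A) κ
    (fun n Y => hκpos n (fun s t => star (Y s) * Y t)
      ⟨1, fun _ => Y, fun _ _ => Set.mem_univ _, fun s t => by simp⟩) hκone
  have hT : ∀ b, ‖(ψ' ∘ₗ φ) b‖ ≤ 2 * ‖b‖ := by
    intro b
    have h1 := hκb (φ b)
    rw [hκ, Unitization.norm_inr] at h1
    have h2 := hφ b
    have h3 : (ψ' ∘ₗ φ) b = ψ' (φ b) := rfl
    rw [h3]
    linarith
  have hT1 : ∀ e : B, ‖e‖ ≤ 1 → ‖(ψ' ∘ₗ φ) (star e * e)‖ ≤ 1 := by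
    intro e he
    obtain ⟨r, W, hW⟩ := posK_one φ (hCPK B (Mk k) φ hφcp) e
    have h1 : ‖∑ j, star (W j) * W j‖ ≤ 1 := by
      rw [← hW]
      refine (hφ _).trans ?_
      rw [CStarRing.norm_star_mul_self]
      nlinarith [norm_nonneg e]
    have h2 := bnd1 κ (posK_one κ hκpos) hκone W h1
    rw [← hW, hκ, Unitization.norm_inr] at h2
    exact h2
  obtain ⟨s, hs1, hs2⟩ := hUCE A B (ψ' ∘ₗ φ) hT hT1
    (fun n K hK => hpos n _ (hCPK B (Mk k) φ hφcp n K hK))
  refine ⟨⊤, s ∘ₗ (⊤ : Submodule ℂ (Unitization ℂ B)).subtype, Submodule.mem_top,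
    fun x _ => Submodule.mem_top, ?_, ?_, ?_⟩
  · show s 1 = 1
    have h1 := hs1 1 0
    rw [map_zero, Unitization.inr_zero, Unitization.inr_zero, add_zero, add_zero,
      Unitization.inl_one, Unitization.inl_one] at h1
    exact h1
  · intro x hx
    refine ⟨Submodule.mem_top, ?_⟩
    show ‖Unitization.starMap π (s x) - x‖ < ε
    have hx' : x = Unitization.inl x.fst + (x.snd : Unitization ℂ B) :=
      (Unitization.inl_fst_add_inr_snd_eq x).symm
    have h3 : s x = Unitization.inl x.fst + ((ψ' ∘ₗ φ) x.snd : Unitization ℂ A) := by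
      conv_lhs => rw [hx']
      exact hs1 _ _
    have h4 : π ((ψ' ∘ₗ φ) x.snd) = ψ (φ x.snd) := hlift _
    have h5 : Unitization.starMap π (s x) =
        Unitization.inl x.fst + (ψ (φ x.snd) : Unitization ℂ B) := by
      rw [h3, map_add, Unitization.starMap_inl, Unitization.starMap_inr, h4]
      rfl
    have h2 : Unitization.starMap π (s x) - x =
        ((ψ (φ x.snd) - x.snd : B) : Unitization ℂ B) := by
      rw [h5, Unitization.inr_sub]
      calc Unitization.inl x.fst + (ψ (φ x.snd) : Unitization ℂ B) - x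
          = Unitization.inl x.fst + (ψ (φ x.snd) : Unitization ℂ B) -
            (Unitization.inl x.fst + (x.snd : Unitization ℂ B)) := by
              rw [Unitization.inl_fst_add_inr_snd_eq x]
        _ = (ψ (φ x.snd) : Unitization ℂ B) - (x.snd : Unitization ℂ B) := by abel
    rw [h2, Unitization.norm_inr]
    exact happ _ (Finset.mem_image_of_mem _ hx)
  · intro n K hK
    exact hs2 n (fun i j => (K i j : Unitization ℂ B)) hK

end Pool.Agent.Helper14.AE.NUC
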